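import Pool.Agent.Helper88.BL.ZP
import Pool.Agent.Helper29.BL.GoalsF

/-!
# Project BL (MP_a41896_nt), second round: the exceptional curve (`ZPg`).
-/

set_option autoImplicit false

namespace Pool.Agent.Helper88.BL

open WeierstrassCurve Height Height.AdmissibleAbsValues Polynomial Pool.Agent.Helper29.BL
open scoped Polynomial.Bivariate

noncomputable section

/-- the points of finite order are in a finite set -/
theorem torsg {K : Type} [Field K] [NumberField K] [DecidableEq K] (hN : NORg) (W : Affine K)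
    (H : W.Point → ℝ) (c₀ : ℝ) (e : ℕ) (hH : GH W H c₀ e) :
    ∃ T : Finset W.Point, ∀ (P : W.Point) (n : ℕ), 0 < n → n • P = 0 → P ∈ T := by
  obtain ⟨h1, h2⟩ := hN K W H c₀ e hH
  refine ⟨(h1 0).toFinset, fun P n hn hP => ?_⟩
  rw [Set.Finite.mem_toFinset]
  exact ((h2 P).2 ⟨n, hn, hP⟩).le

/-- **ZPg** -/
theorem zpg_of : MUL → NORg → ZPg := by
  intro hM hN K _ _ _ W₁ W₂ H₁ H₂ c₀ e₁ e₂ g₁ g₂ d z₀ hz hD
  obtain ⟨T₁, hT₁⟩ := torsg hN W₁ H₁ c₀ e₁ g₁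
  obtain ⟨T₂, hT₂⟩ := torsg hN W₂ H₂ c₀ e₂ g₂
  have hk : ∀ k : ℕ, ∃ Z : K[X][Y], Z ≠ 0 ∧ (1 ≤ k → k ≤ 16 → ∀ z : W₁.Point × W₂.Point, NT z →
      (∃ F : K[X][Y], F ≠ 0 ∧ BD d F ∧ ∀ n : ℕ, 1 ≤ n → ev F (kap ((n * k) • z)) = 0) →
        ev Z (kap z) = 0) := by
    intro k
    by_cases h : 1 ≤ k ∧ k ≤ 16
    · obtain ⟨Z, h1, h2⟩ := one_k W₁ W₂ hM d k h.1 h.2 z₀ hz hD
      exact ⟨Z, h1, fun _ _ => h2⟩
    · exact ⟨1, one_ne_zero, fun h1 h2 => absurd ⟨h1, h2⟩ h⟩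
  choose Z hZ0 hZ using hk
  refine ⟨(∏ k ∈ Finset.Icc 1 16, Z k) * (∏ t ∈ T₁, C (X - C (xc t))) *
    ∏ t ∈ T₂, (X - C (C (xc t))), ?_, ?_⟩
  · refine mul_ne_zero (mul_ne_zero ?_ ?_) ?_
    · exact Finset.prod_ne_zero_iff.2 fun k _ => hZ0 k
    · exact Finset.prod_ne_zero_iff.2 fun t _ => C_ne_zero.2 (X_sub_C_ne_zero _)
    · exact Finset.prod_ne_zero_iff.2 fun t _ => X_sub_C_ne_zero _
  · intro z _ hne
    have e : ∀ F : K[X][Y], ev F (kap z) = F.evalEval (xc z.1) (xc z.2) := fun _ => rfl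
    rw [e, evalEval_mul, evalEval_mul, evalEval_prod, evalEval_prod, evalEval_prod] at hne
    have h1 := Finset.prod_ne_zero_iff.1 (left_ne_zero_of_mul (left_ne_zero_of_mul hne))
    have h2 := Finset.prod_ne_zero_iff.1 (right_ne_zero_of_mul (left_ne_zero_of_mul hne))
    have h3 := Finset.prod_ne_zero_iff.1 (right_ne_zero_of_mul hne)
    have hNT : NT z := by
      refine ⟨fun n hn h => h2 z.1 (hT₁ _ n hn h) ?_, fun n hn h => h3 z.2 (hT₂ _ n hn h) ?_⟩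
      · rw [evalEval_C']
        simp
      · simp
    refine ⟨hNT, ?_⟩
    rintro ⟨k, k1, k2, F, F0, F1, F2⟩
    exact h1 k (Finset.mem_Icc.2 ⟨k1, k2⟩) (hZ k k1 k2 z hNT ⟨F, F0, F1, F2⟩)

end

end Pool.Agent.Helper88.BL
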