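import Pool.Agent.Helper29.BL.SUB
import Pool.Agent.Helper29.BL.GoalsA
import Pool.Agent.Helper29.BL.GoalsC

/-!
# Project BL (MP_a41896_nt): the exceptional curve (`ZP`).
-/

set_option autoImplicit false

namespace Pool.Agent.Helper88.BL

open WeierstrassCurve Height Height.AdmissibleAbsValues Polynomial Pool.Agent.Helper29.BL
open scoped Polynomial.Bivariate

noncomputable section

/-- a determinant that does not vanish -/
theorem exists_det {K m ι : Type} [Field K] [Fintype m] [DecidableEq m] (v : ι → m → K)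
    (h : ∀ f : m → K, (∀ i, ∑ j, f j * v i j = 0) → f = 0) :
    ∃ n : m → ι, (Matrix.of fun i j => v (n i) j).det ≠ 0 := by
  have ht : Submodule.span K (Set.range v) = ⊤ := by
    by_contra hne
    obtain ⟨φ, h0, hφ⟩ := Submodule.exists_le_ker_of_lt_top _ (lt_top_iff_ne_top.2 hne)
    apply h0
    have h1 := h (fun j => φ (fun i => if j = i then 1 else 0)) fun i => by
      have h2 : φ (v i) = 0 := hφ (Submodule.subset_span ⟨i, rfl⟩)
      rw [LinearMap.pi_apply_eq_sum_univ] at h2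
      refine Eq.trans ?_ h2
      refine Finset.sum_congr rfl fun j _ => ?_
      rw [smul_eq_mul, mul_comm]
    refine LinearMap.ext fun x => ?_
    rw [LinearMap.pi_apply_eq_sum_univ, LinearMap.zero_apply]
    refine Finset.sum_eq_zero fun j _ => ?_
    have h3 := congrFun h1 j
    simp only [Pi.zero_apply] at h3
    rw [h3, smul_zero]
  obtain ⟨f, f1, -, f3⟩ := Submodule.exists_fun_fin_finrank_span_eq K (Set.range v)
  have hc : Fintype.card m = Module.finrank K (Submodule.span K (Set.range v)) := by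
    rw [ht, finrank_top, Module.finrank_fintype_fun_eq_card]
  let e : m ≃ Fin (Module.finrank K (Submodule.span K (Set.range v))) := Fintype.equivFinOfCardEq hc
  choose g hg using f1
  refine ⟨fun i => g (e i), ?_⟩
  have hli : LinearIndependent K (Matrix.of fun i j => v (g (e i)) j).row := by
    have : (Matrix.of fun i j => v (g (e i)) j).row = f ∘ e := by
      ext i j
      simp only [Matrix.row_apply, Matrix.of_apply, Function.comp_apply]
      rw [hg]
    rw [this]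
    exact f3.comp _ e.injective
  rw [Matrix.linearIndependent_rows_iff_isUnit, Matrix.isUnit_iff_isUnit_det] at hli
  exact hli.ne_zero

section

variable {K : Type} [Field K] (d : ℕ)

/-- the monomials -/
def mon (p : K × K) (ij : Fin (d + 1) × Fin (d + 1)) : K := p.1 ^ (ij.1 : ℕ) * p.2 ^ (ij.2 : ℕ)

/-- the polynomial with the coefficients `f` -/
def pol (f : Fin (d + 1) × Fin (d + 1) → K) : K[X][Y] :=
  ∑ ij, C (C (f ij) * X ^ (ij.1 : ℕ)) * X ^ (ij.2 : ℕ)

theorem pol_coeff (f : Fin (d + 1) × Fin (d + 1) → K) (i j : Fin (d + 1)) :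
    ((pol d f).coeff j).coeff i = f (i, j) := by
  unfold pol
  rw [Polynomial.finsetSum_coeff, Polynomial.finsetSum_coeff, Finset.sum_eq_single (i, j)]
  · rw [coeff_C_mul_X_pow, if_pos rfl, coeff_C_mul_X_pow, if_pos rfl]
  · rintro ⟨i', j'⟩ _ hne
    rw [coeff_C_mul_X_pow]
    split_ifs with h1
    · rw [coeff_C_mul_X_pow, if_neg]
      intro h2
      exact hne (Prod.ext (Fin.ext h2.symm) (Fin.ext h1.symm))
    · rw [coeff_zero]
  · intro h
    exact absurd (Finset.mem_univ _) h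

theorem pol_BD (f : Fin (d + 1) × Fin (d + 1) → K) : BD d (pol d f) := by
  refine BDs.toBD (BDs.sum _ fun ij _ => ?_)
  refine ⟨?_, fun j => ?_⟩
  · refine (natDegree_C_mul_X_pow_le _ _).trans ?_
    omega
  · rw [coeff_C_mul_X_pow]
    split_ifs
    · refine (natDegree_C_mul_X_pow_le _ _).trans ?_
      omega
    · simp

theorem ev_eq (F : K[X][Y]) (hF : BD d F) (p : K × K) :
    ev F p = ∑ ij : Fin (d + 1) × Fin (d + 1), (F.coeff ij.2).coeff ij.1 * mon d p ij := by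
  have := hF.eq_sum p.1 p.2
  rw [show (p.1, p.2) = p from rfl] at this
  rw [this, Fintype.sum_prod_type, Finset.sum_range]
  refine Finset.sum_congr rfl fun i _ => ?_
  rw [Finset.sum_range]
  refine Finset.sum_congr rfl fun j _ => ?_
  unfold mon
  ring

end

section

variable {K : Type} [Field K] [DecidableEq K] (W₁ W₂ : Affine K)

/-- the part for one `k` -/
theorem one_k (hM : MUL) (d k : ℕ) (hk1 : 1 ≤ k) (hk2 : k ≤ 16) (z₀ : W₁.Point × W₂.Point)
    (hz : NT z₀) (hD : ¬ Deg d z₀) : ∃ Z : K[X][Y], Z ≠ 0 ∧ ∀ z : W₁.Point × W₂.Point, NT z →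
    (∃ F : K[X][Y], F ≠ 0 ∧ BD d F ∧ ∀ n : ℕ, 1 ≤ n → ev F (kap ((n * k) • z)) = 0) →
      ev Z (kap z) = 0 := by
  obtain ⟨nn, hn⟩ := exists_det (fun (n : ℕ) => mon d (kap (((n + 1) * k) • z₀))) (by
    intro f hf
    by_contra hf0
    refine hD ⟨k, hk1, hk2, pol d f, ?_, pol_BD d f, ?_⟩
    · intro h
      apply hf0
      funext ij
      have := pol_coeff d f ij.1 ij.2
      rw [h, coeff_zero, coeff_zero] at this
      exact this.symm
    · intro n h1
      obtain ⟨n, rfl⟩ : ∃ l, n = l + 1 := ⟨n - 1, by omega⟩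
      rw [ev_eq d _ (pol_BD d f), ← hf n]
      refine Finset.sum_congr rfl fun ij _ => ?_
      rw [pol_coeff])
  have hN : ∀ r, 1 ≤ (nn r + 1) * k := fun r => Nat.one_le_iff_ne_zero.2
    (Nat.mul_ne_zero (by omega) (by omega))
  choose A₁ B₁ h₁ using fun r => hM K W₁ _ (hN r)
  choose A₂ B₂ h₂ using fun r => hM K W₂ _ (hN r)
  set Mp : Matrix (Fin (d + 1) × Fin (d + 1)) (Fin (d + 1) × Fin (d + 1)) K[X][Y] :=
    Matrix.of fun r ij => ((C (A₁ r)) ^ (ij.1 : ℕ) * (C (B₁ r)) ^ (d - (ij.1 : ℕ))) *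
      (((A₂ r).map C) ^ (ij.2 : ℕ) * ((B₂ r).map C) ^ (d - (ij.2 : ℕ))) with hMp
  have key : ∀ z : W₁.Point × W₂.Point, NT z → ∃ β : K, β ≠ 0 ∧ ev Mp.det (kap z) =
      β * (Matrix.of fun r ij => mon d (kap (((nn r + 1) * k) • z)) ij).det := by
    intro z hz
    refine ⟨∏ r, ((B₁ r).eval (xc z.1) ^ d * (B₂ r).eval (xc z.2) ^ d), ?_, ?_⟩
    · exact Finset.prod_ne_zero_iff.2 fun r _ =>
        mul_ne_zero (pow_ne_zero _ (h₁ r z.1 hz.1).1) (pow_ne_zero _ (h₂ r z.2 hz.2).1)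
    · rw [← Matrix.det_mul_column]
      have e : ev Mp.det (kap z) = evalEvalRingHom (xc z.1) (xc z.2) Mp.det := rfl
      rw [e, RingHom.map_det]
      congr 1
      ext r ij
      obtain ⟨-, e1⟩ := h₁ r z.1 hz.1
      obtain ⟨-, e2⟩ := h₂ r z.2 hz.2
      have hi : (ij.1 : ℕ) + (d - (ij.1 : ℕ)) = d := by omega
      have hj : (ij.2 : ℕ) + (d - (ij.2 : ℕ)) = d := by omega
      have p1 : (B₁ r).eval (xc z.1) ^ d =
          (B₁ r).eval (xc z.1) ^ (ij.1 : ℕ) * (B₁ r).eval (xc z.1) ^ (d - (ij.1 : ℕ)) := by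
        rw [← pow_add, hi]
      have p2 : (B₂ r).eval (xc z.2) ^ d =
          (B₂ r).eval (xc z.2) ^ (ij.2 : ℕ) * (B₂ r).eval (xc z.2) ^ (d - (ij.2 : ℕ)) := by
        rw [← pow_add, hj]
      have e3 : kap (((nn r + 1) * k) • z) =
          (xc (((nn r + 1) * k) • z.1), xc (((nn r + 1) * k) • z.2)) := rfl
      rw [RingHom.mapMatrix_apply, Matrix.map_apply, hMp, Matrix.of_apply, Matrix.of_apply,
        coe_evalEvalRingHom, evalEval_mul, evalEval_mul, evalEval_mul, evalEval_pow, evalEval_pow,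
        evalEval_pow, evalEval_pow, evalEval_C', evalEval_C', evalEval_map_C, evalEval_map_C,
        Matrix.of_apply, e3]
      unfold mon
      rw [p1, p2, ← e1, ← e2, mul_pow, mul_pow]
      ring
  refine ⟨Mp.det, ?_, ?_⟩
  · intro h
    obtain ⟨β, hβ, h1⟩ := key z₀ hz
    rw [h] at h1
    have : ev (0 : K[X][Y]) (kap z₀) = 0 := evalEval_zero _ _
    rw [this] at h1
    exact mul_ne_zero hβ hn h1.symm
  · rintro z hz ⟨F, F0, F1, F2⟩
    obtain ⟨β, hβ, h1⟩ := key z hz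
    rw [h1]
    refine mul_eq_zero_of_right _ (Matrix.exists_mulVec_eq_zero_iff.1
      ⟨fun ij => (F.coeff ij.2).coeff ij.1, ?_, ?_⟩)
    · intro h
      apply F0
      ext j i
      rw [coeff_zero, coeff_zero]
      by_cases hj : d < j
      · rw [coeff_eq_zero_of_natDegree_lt (F1.1.trans_lt hj), coeff_zero]
      · by_cases hi : d < i
        · exact coeff_eq_zero_of_natDegree_lt ((F1.2 j).trans_lt hi)
        · exact congrFun h (⟨i, by omega⟩, ⟨j, by omega⟩)
    · ext r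
      have h2 := F2 (nn r + 1) (by omega)
      rw [ev_eq d F F1] at h2
      rw [Pi.zero_apply, ← h2]
      simp only [Matrix.mulVec, dotProduct, Matrix.of_apply]
      refine Finset.sum_congr rfl fun ij _ => mul_comm _ _

end

/-- the points of finite order are in a finite set -/
theorem tors {K : Type} [Field K] [NumberField K] [DecidableEq K] (hN : NOR) (hC : CAN)
    (W : Affine K) [W.IsElliptic] : ∃ T : Finset W.Point, ∀ (P : W.Point) (n : ℕ), 0 < n →
      n • P = 0 → P ∈ T := by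
  obtain ⟨H, c₀, hH⟩ := hC K W
  obtain ⟨h1, -, h3⟩ := (hN K W).2 H c₀ hH
  refine ⟨(h1 0).toFinset, fun P n hn hP => ?_⟩
  rw [Set.Finite.mem_toFinset]
  exact (h3 P n hn hP).le

/-- **ZP** -/
theorem zp_of : MUL → NOR → CAN → ZP := by
  intro hM hN hC K _ _ _ W₁ W₂ _ _ d z₀ hz hD
  obtain ⟨T₁, hT₁⟩ := tors hN hC W₁
  obtain ⟨T₂, hT₂⟩ := tors hN hC W₂
  have hk : ∀ k : ℕ, ∃ Z : K[X][Y], Z ≠ 0 ∧ (1 ≤ k → k ≤ 16 → ∀ z : W₁.Point × W₂.Point, NT z →
      (∃ F : K[X][Y], F ≠ 0 ∧ BD d F ∧ ∀ n : ℕ, 1 ≤ n → ev F (kap ((n * k) • z)) = 0) →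
        ev Z (kap z) = 0) := by
    intro k
    by_cases h : 1 ≤ k ∧ k ≤ 16
    · obtain ⟨Z, h1, h2⟩ := one_k W₁ W₂ hM d k h.1 h.2 z₀ hz hD
      exact ⟨Z, h1, fun _ _ => h2⟩
    · exact ⟨1, one_ne_zero, fun h1 h2 => absurd ⟨h1, h2⟩ h⟩
  choose Z hZ0 hZ using hk
  refine ⟨(∏ k ∈ Finset.Icc 1 16, Z k) * (∏ t ∈ T₁, C (X - C (xc t))) *
    ∏ t ∈ T₂, (X - C (C (xc t))), ?_, ?_⟩
  · refine mul_ne_zero (mul_ne_zero ?_ ?_) ?_
    · exact Finset.prod_ne_zero_iff.2 fun k _ => hZ0 k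
    · exact Finset.prod_ne_zero_iff.2 fun t _ => C_ne_zero.2 (X_sub_C_ne_zero _)
    · exact Finset.prod_ne_zero_iff.2 fun t _ => X_sub_C_ne_zero _
  · intro z _ hne
    have e : ∀ F : K[X][Y], ev F (kap z) = F.evalEval (xc z.1) (xc z.2) := fun _ => rfl
    rw [e, evalEval_mul, evalEval_mul, evalEval_prod, evalEval_prod, evalEval_prod] at hne
    have h1 := Finset.prod_ne_zero_iff.1 (left_ne_zero_of_mul (left_ne_zero_of_mul hne))
    have h2 := Finset.prod_ne_zero_iff.1 (right_ne_zero_of_mul (left_ne_zero_of_mul hne))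
    have h3 := Finset.prod_ne_zero_iff.1 (right_ne_zero_of_mul hne)
    have hNT : NT z := by
      refine ⟨fun n hn h => h2 z.1 (hT₁ _ n hn h) ?_, fun n hn h => h3 z.2 (hT₂ _ n hn h) ?_⟩
      · rw [evalEval_C']
        simp
      · simp
    refine ⟨hNT, ?_⟩
    rintro ⟨k, k1, k2, F, F0, F1, F2⟩
    exact h1 k (Finset.mem_Icc.2 ⟨k1, k2⟩) (hZ k k1 k2 z hNT ⟨F, F0, F1, F2⟩)

end

end Pool.Agent.Helper88.BL
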